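import Pool.Agent.Helper76_Hankel.Bridge

set_option autoImplicit false

open Pool.Agent.Helper76_HankelStatement

namespace Pool.Agent.Results.MP_dc9318_an.NoNonzeroHilbertSchmidt

/-- **Answer to Q1 (negative).** Let `n ≥ 2`, let `Ω ⊆ ℂⁿ` be a bounded Reinhardt domain (open,
connected; no completeness, convexity or pseudoconvexity is assumed) and let `f` be holomorphic on
`Ω`. If the Hankel operator `H_{\bar f} g = (I - P)(\bar f g)` is densely defined in `A²(Ω)` and
extends to a Hilbert-Schmidt operator `T : A²(Ω) → L²(Ω)`, then this operator is zero. -/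
theorem result (n : ℕ) (hn : 2 ≤ n) (Ω : Set (Fin n → ℂ)) (hopen : IsOpen Ω)
    (hconn : IsConnected Ω) (hbdd : Bornology.IsBounded Ω) (hR : IsReinhardt Ω)
    (f : (Fin n → ℂ) → ℂ) (hf : DifferentiableOn ℂ f Ω) (T : BergmanSpace Ω →L[ℂ] LTwo Ω)
    (hT : IsHilbertSchmidtHankel Ω f T) : T = 0 :=
  main hn hopen hconn hbdd hR hf hT

end Pool.Agent.Results.MP_dc9318_an.NoNonzeroHilbertSchmidt
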